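import Mathlib
import Pool.Agent.H92.SG.Stmts

namespace Pool.Agent.H77.SG

open Pool.Agent.H92.SG

/-- The action of `β77` on four strands modulo 3. -/
theorem beta_apply (hA : DihA) (b : ℕ → ZMod 3) :
    (∀ i, 4 ≤ i → dih (ZMod 3) β77 b i = b i) ∧
    (dih (ZMod 3) β77 b = b ↔ (b 0 = b 3 ∧ b 1 = b 2)) ∧
    (dih (ZMod 3) β77 b 0 - dih (ZMod 3) β77 b 1 + dih (ZMod 3) β77 b 2 - dih (ZMod 3) β77 b 3 =
      b 0 - b 1 + b 2 - b 3) := by
  have key : ∀ i, 4 ≤ i → dih (ZMod 3) β77 b i = b i := by
    intro i hi
    have h0 : i ≠ 0 := by omega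
    have h1 : i ≠ 1 := by omega
    have h2 : i ≠ 2 := by omega
    have h3 : i ≠ 3 := by omega
    simp [β77, map_mul, LinearEquiv.mul_apply, hA.σ_apply, hA.σ_inv_apply, h0, h1, h2, h3,
      -map_inv]
  refine ⟨key, ?_, ?_⟩
  · constructor
    · intro h
      have e0 := congrFun h 0
      have e1 := congrFun h 1
      have e2 := congrFun h 2
      have e3 := congrFun h 3
      simp [β77, map_mul, LinearEquiv.mul_apply, hA.σ_apply, hA.σ_inv_apply, -map_inv] at e0 e1 e2 e3
      generalize b 0 = x0 at *
      generalize b 1 = x1 at *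
      generalize b 2 = x2 at *
      generalize b 3 = x3 at *
      clear h key
      revert x0 x1 x2 x3
      decide
    · rintro ⟨h1, h2⟩
      funext i
      by_cases hi : 4 ≤ i
      · exact key i hi
      · have : i = 0 ∨ i = 1 ∨ i = 2 ∨ i = 3 := by omega
        rcases this with rfl | rfl | rfl | rfl <;>
        · simp [β77, map_mul, LinearEquiv.mul_apply, hA.σ_apply, hA.σ_inv_apply, -map_inv]
          generalize b 0 = x0 at *
          generalize b 1 = x1 at *
          generalize b 2 = x2 at *
          generalize b 3 = x3 at *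
          clear key
          revert x0 x1 x2 x3
          decide
  · simp [β77, map_mul, LinearEquiv.mul_apply, hA.σ_apply, hA.σ_inv_apply, -map_inv]
    ring

theorem shN_lt (hA : DihA) (x : B) (k : ℕ) : ∀ (a : ℕ → ZMod 3) (i : ℕ), i < k →
    dih (ZMod 3) ((sh^[k]) x) a i = a i := by
  induction k with
  | zero => intro a i hi; omega
  | succ k ih =>
    intro a i hi
    rw [Function.iterate_succ_apply']
    rcases i with _ | i
    · exact hA.sh0 _ _ _
    · rw [hA.sh1, ih _ _ (by omega)]

theorem shN_add (hA : DihA) (x : B) (k : ℕ) : ∀ (a : ℕ → ZMod 3) (i : ℕ),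
    dih (ZMod 3) ((sh^[k]) x) a (i + k) = dih (ZMod 3) x (fun j => a (j + k)) i := by
  induction k with
  | zero => intro a i; rfl
  | succ k ih =>
    intro a i
    rw [Function.iterate_succ_apply', ← add_assoc, hA.sh1, ih]
    rfl

theorem shN_mem {n : ℕ} {x : B} (hx : x ∈ Bn n) (k : ℕ) : (sh^[k]) x ∈ Bn (n + k) := by
  induction k with
  | zero => exact hx
  | succ k ih =>
    rw [Function.iterate_succ_apply', ← add_assoc]
    refine Bn_induction (p := fun y => sh y ∈ Bn (n + k + 1)) ?_ ?_ ?_ ?_ ih
    · rw [map_one]; exact one_mem _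
    · intro i hi
      rw [sh_σ]; exact σ_mem_Bn (by omega)
    · intro x _ y _ hx hy
      rw [map_mul]; exact mul_mem hx hy
    · intro x _ hx
      rw [map_inv]; exact inv_mem hx

theorem beta_mem : β77 ∈ Bn 4 := by
  have h0 : σ 0 ∈ Bn 4 := σ_mem_Bn (by omega)
  have h1 : σ 1 ∈ Bn 4 := σ_mem_Bn (by omega)
  have h2 : σ 2 ∈ Bn 4 := σ_mem_Bn (by omega)
  unfold β77
  exact mul_mem (mul_mem (mul_mem (mul_mem (mul_mem (mul_mem (inv_mem h0) h1) (inv_mem h0)) h1)
    (inv_mem h2)) h1) (inv_mem h2)

theorem nfold_mem (n : ℕ) : nfold 4 β77 n ∈ Bn (3 * n + 1) := by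
  induction n with
  | zero => exact one_mem _
  | succ n ih =>
    refine mul_mem (Bn_mono (by omega) ih) ?_
    have := shN_mem beta_mem (n * (4 - 1))
    exact Bn_mono (by omega) this

theorem BLKZ_thm (hA : DihA) (hB : DihB) : BlkZStmt := by
  intro n
  induction n with
  | zero =>
    intro a
    simp [nfold]
  | succ n ih =>
    intro a
    have hT : (sh^[n * (4 - 1)]) β77 = (sh^[3 * n]) β77 := by
      rw [show n * (4 - 1) = 3 * n by omega]
    set a' := dih (ZMod 3) ((sh^[3 * n]) β77) a with ha'
    have hdef : dih (ZMod 3) (nfold 4 β77 (n + 1)) a = dih (ZMod 3) (nfold 4 β77 n) a' := by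
      rw [nfold, map_mul, LinearEquiv.mul_apply, hT]
    have lo : ∀ i, i < 3 * n → a' i = a i := fun i hi => shN_lt hA _ _ _ _ hi
    have hi' : ∀ i, a' (i + 3 * n) = dih (ZMod 3) β77 (fun j => a (j + 3 * n)) i :=
      fun i => shN_add hA _ _ _ _
    obtain ⟨k1, k2, k3⟩ := beta_apply hA (fun j => a (j + 3 * n))
    have step : a' = a ↔ (a (3 * n) = a (3 * n + 3) ∧ a (3 * n + 1) = a (3 * n + 2)) := by
      constructor
      · intro h
        have : dih (ZMod 3) β77 (fun j => a (j + 3 * n)) = fun j => a (j + 3 * n) := by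
          funext i; rw [← hi', h]
        have := k2.mp this
        simpa [add_comm] using this
      · intro h
        have h2 := k2.mpr (by simpa [add_comm] using h)
        funext i
        by_cases hin : i < 3 * n
        · exact lo i hin
        · obtain ⟨j, rfl⟩ : ∃ j, i = j + 3 * n := ⟨i - 3 * n, by omega⟩
          rw [hi', h2]
    have split : (∀ j < n + 1, a (3 * j) = a (3 * j + 3) ∧ a (3 * j + 1) = a (3 * j + 2)) ↔
        ((∀ j < n, a (3 * j) = a (3 * j + 3) ∧ a (3 * j + 1) = a (3 * j + 2)) ∧
          (a (3 * n) = a (3 * n + 3) ∧ a (3 * n + 1) = a (3 * n + 2))) := by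
      constructor
      · intro h
        exact ⟨fun j hj => h j (by omega), h n (by omega)⟩
      · rintro ⟨h1, h2⟩ j hj
        rcases Nat.lt_or_ge j n with h | h
        · exact h1 j h
        · obtain rfl : j = n := by omega
          exact h2
    rw [hdef, split, ← step]
    constructor
    · intro h
      have hh : a' = a := by
        have e1 : ∀ i, 3 * n + 1 ≤ i → a' i = a i := by
          intro i hi
          rw [← hB.loc1 _ _ _ (nfold_mem n) a' i hi, h]
        funext i
        rcases lt_trichotomy i (3 * n) with h' | h' | h'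
        · exact lo i h'
        · subst h'
          have e2 := e1 (3 * n + 1) (by omega)
          have e3 := e1 (3 * n + 2) (by omega)
          have e4 := e1 (3 * n + 3) (by omega)
          have f0 := hi' 0
          have f1 := hi' 1
          have f2 := hi' 2
          have f3 := hi' 3
          rw [← f0, ← f1, ← f2, ← f3] at k3
          simp only [zero_add, add_comm 1 (3 * n), add_comm 2 (3 * n), add_comm 3 (3 * n)] at k3
          rw [e2, e3, e4] at k3
          linear_combination k3
        · exact e1 i (by omega)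
      rw [hh] at h
      exact ⟨(ih a).mp h, hh⟩
    · rintro ⟨h1, h2⟩
      rw [h2]
      exact (ih a).mpr h1

end Pool.Agent.H77.SG
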